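import Pool.Agent.V5helper96.PG.Defs
import Pool.Agent.V5helper96.PG.Game

/-!
One-player percolation games on `ℤ^d` with i.i.d. bounded payoffs have a limit value.

Proof in short. If no action moves, the value is constant in `n`. Otherwise let `W` be the largest
mean payoff of a cycle that occurs somewhere with positive probability, and `A` the supremum of the
expected mean payoffs of the best words with a prescribed length and a prescribed nonzero
displacement. The player can secure any number below `W` (walk to a good cycle and stay on it) and
any number below `A` (concatenate blocks, law of large numbers). Conversely erase the loops of an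
optimal path: each erased step is worth at most `W`, and the self-avoiding rest is worth at most
`A` per step up to `o(n)`, since the best self-avoiding payoff with given length and end point is
concentrated (an exponential Efron-Stein bound with one-sided differences) and there are only
polynomially many lengths and end points.
-/

set_option autoImplicit false

open scoped Topology
open MeasureTheory ProbabilityTheory Filter

namespace Pool.Agent.Results.MP_5b044e_pr.LimitValue

open Pool.Agent.V5helper96.PG

/-- Every one-player percolation game on `ℤ^d` with i.i.d. bounded payoffs has a limit value; if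
some action moves the state, the limit is one deterministic constant for all states. -/
theorem result {d : ℕ} {I J : Type*} [Finite I] [Nonempty I] [Finite J] [Nonempty J]
    (hone : Subsingleton I ∨ Subsingleton J) (q : I → J → (Fin d → ℤ))
    {Ω : Type*} [MeasurableSpace Ω] (P : Measure Ω) [IsProbabilityMeasure P]
    (g : Ω → (Fin d → ℤ) → I → J → ℝ)
    (hmeas : ∀ z i j, Measurable fun ω => g ω z i j)
    (hbd : ∃ C : ℝ, ∀ z i j, ∀ᵐ ω ∂P, |g ω z i j| ≤ C)
    (hind : iIndepFun (fun (z : Fin d → ℤ) (ω : Ω) => g ω z) P)
    (hid : ∀ z : Fin d → ℤ, IdentDistrib (fun ω => g ω z) (fun ω => g ω 0) P P) :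
    (∀ z, ∀ᵐ ω ∂P, ∃ L : ℝ, Tendsto (fun n : ℕ => value (g ω) q n z) atTop (𝓝 L)) ∧
    ((∃ i j, q i j ≠ 0) → ∃ v : ℝ, ∀ᵐ ω ∂P, ∀ z,
      Tendsto (fun n : ℕ => value (g ω) q n z) atTop (𝓝 v)) := by
  obtain ⟨C, hC⟩ := hbd
  rcases hone with hI | hJ
  · obtain ⟨h1, h2⟩ := game P q g hmeas hC hind hid (-1) (by norm_num)
    simp only [neg_mul, one_mul] at h1 h2
    constructor
    · intro z
      filter_upwards [h1 z] with ω hω
      obtain ⟨L, hL⟩ := hω
      refine ⟨-L, hL.neg.congr fun n => ?_⟩
      rw [value_min]
    · intro hq
      obtain ⟨v, hv⟩ := h2 hq
      refine ⟨-v, ae_all_iff.2 fun z => ?_⟩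
      filter_upwards [hv z] with ω hω
      refine hω.neg.congr fun n => ?_
      rw [value_min]
  · obtain ⟨h1, h2⟩ := game P q g hmeas hC hind hid 1 (by norm_num)
    simp only [one_mul] at h1 h2
    constructor
    · intro z
      filter_upwards [h1 z] with ω hω
      obtain ⟨L, hL⟩ := hω
      refine ⟨L, hL.congr fun n => ?_⟩
      rw [value_max]
    · intro hq
      obtain ⟨v, hv⟩ := h2 hq
      refine ⟨v, ae_all_iff.2 fun z => ?_⟩
      filter_upwards [hv z] with ω hω
      refine hω.congr fun n => ?_
      rw [value_max]

end Pool.Agent.Results.MP_5b044e_pr.LimitValue
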